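import Pool.Agent.helper4.GA.Spec
import Pool.Agent.helper43.Cant.RB

set_option autoImplicit false

/-!
# MP_3c0a64_an, row ga:FEW
-/

namespace Pool.Agent.GA

open MeasureTheory Filter Topology
open scoped ENNReal
open Pool.Agent.helper32.Cant

/-- lower bound for the gauge -/
theorem FEW_gau {C₁ lam : ℝ} (hC : 0 ≤ C₁) (hlam : 0 < lam) {n : ℕ} (hn1 : 1 ≤ n)
    (hn : (n : ℝ) ≤ Real.log (3 ^ n / lam)) {d : ℝ} (hd1 : lam / 3 ^ (n + 1) ≤ d)
    (hd2 : d ≤ lam / 3 ^ n) :
    ENNReal.ofReal (lam / 3 ^ (n + 1) * Real.exp (C₁ * Real.log n ^ 3)) ≤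
      gau C₁ (ENNReal.ofReal d) := by
  have hd : 0 < d := lt_of_lt_of_le (by positivity) hd1
  unfold gau
  rw [ENNReal.toReal_ofReal hd.le]
  apply ENNReal.ofReal_le_ofReal
  have hnR : (1 : ℝ) ≤ n := by exact_mod_cast hn1
  have h1 : (n : ℝ) ≤ Real.log (1 / d) := by
    refine hn.trans (Real.log_le_log (by positivity) ?_)
    have h2 := one_div_le_one_div_of_le hd hd2
    rwa [one_div_div] at h2
  have h2 : Real.log n ≤ Real.log (Real.log (1 / d)) := Real.log_le_log (by linarith) h1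
  have h3 : 0 ≤ Real.log n := Real.log_nonneg hnR
  have h4 : Real.exp (C₁ * Real.log n ^ 3) ≤
      Real.exp (C₁ * Real.log (Real.log (1 / d)) ^ 3) :=
    Real.exp_le_exp.2 (mul_le_mul_of_nonneg_left (pow_le_pow_left₀ h3 h2 3) hC)
  exact mul_le_mul hd1 h4 (Real.exp_pos _).le hd.le

/-- the function `3^n exp (-C₁ (log n)^3)` is bounded below by a positive constant -/
theorem FEW_low (C₁ : ℝ) : ∃ C' : ℝ, 0 ≤ C' ∧
    ∀ n : ℕ, 1 ≤ C' * (3 ^ n * Real.exp (-(C₁ * Real.log n ^ 3))) := by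
  have h1 : (fun x : ℝ => Real.log x ^ 3) =o[atTop] (fun x : ℝ => x) :=
    Real.isLittleO_pow_log_id_atTop
  have h2 : ∀ᶠ n : ℕ in atTop, C₁ * Real.log n ^ 3 ≤ n := by
    have h3 := (h1.const_mul_left C₁).bound (show (0 : ℝ) < 1 by norm_num)
    have h4 := tendsto_natCast_atTop_atTop (R := ℝ) |>.eventually h3
    filter_upwards [h4] with n hn
    rw [one_mul, Real.norm_eq_abs, Real.norm_eq_abs] at hn
    have h5 : |(n : ℝ)| = n := abs_of_nonneg (Nat.cast_nonneg n)
    rw [h5] at hn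
    exact (le_abs_self _).trans hn
  obtain ⟨N, hN⟩ := eventually_atTop.1 h2
  have hF : ∀ n : ℕ, 0 < (3 : ℝ) ^ n * Real.exp (-(C₁ * Real.log n ^ 3)) := fun n => by
    positivity
  refine ⟨1 + ∑ n ∈ Finset.range N, 1 / ((3 : ℝ) ^ n * Real.exp (-(C₁ * Real.log n ^ 3))),
    add_nonneg zero_le_one (Finset.sum_nonneg fun n _ => (one_div_pos.2 (hF n)).le), ?_⟩
  intro n
  have hs : 0 ≤ ∑ n ∈ Finset.range N, 1 / ((3 : ℝ) ^ n * Real.exp (-(C₁ * Real.log n ^ 3))) :=
    Finset.sum_nonneg fun n _ => (one_div_pos.2 (hF n)).le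
  rcases lt_or_ge n N with h | h
  · have h3 := Finset.single_le_sum (f := fun n : ℕ =>
      1 / ((3 : ℝ) ^ n * Real.exp (-(C₁ * Real.log n ^ 3)))) (fun n _ => (one_div_pos.2 (hF n)).le)
      (Finset.mem_range.2 h)
    have h4 : 1 = 1 / ((3 : ℝ) ^ n * Real.exp (-(C₁ * Real.log n ^ 3))) *
        (3 ^ n * Real.exp (-(C₁ * Real.log n ^ 3))) := (one_div_mul_cancel (hF n).ne').symm
    calc (1 : ℝ) = _ := h4
      _ ≤ _ := mul_le_mul_of_nonneg_right (by linarith) (hF n).le
  · have h3 : (1 : ℝ) ≤ 3 ^ n * Real.exp (-(C₁ * Real.log n ^ 3)) := by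
      have h4 := hN n h
      have h5 : Real.exp (C₁ * Real.log n ^ 3) ≤ 3 ^ n := by
        calc Real.exp (C₁ * Real.log n ^ 3) ≤ Real.exp n := Real.exp_le_exp.2 h4
          _ = (Real.exp 1) ^ n := by rw [← Real.exp_nat_mul, mul_one]
          _ ≤ 3 ^ n := pow_le_pow_left₀ (Real.exp_pos 1).le
              (by have := Real.exp_one_lt_d9; linarith) n
      rw [Real.exp_neg, ← div_eq_mul_inv, le_div_iff₀ (Real.exp_pos _), one_mul]
      exact h5
    nlinarith

theorem FEW_level (lam : ℝ) (hlam : 0 < lam) :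
    ∃ p₁ : ℕ, 1 ≤ p₁ ∧ ∀ n ≥ p₁, (n : ℝ) ≤ Real.log (3 ^ n / lam) := by
  have h3 : 0 < Real.log 3 - 1 := by
    have h4 : Real.exp 1 < 3 := by
      have := Real.exp_one_lt_d9
      linarith
    have h5 := (Real.lt_log_iff_exp_lt (by norm_num : (0 : ℝ) < 3)).2 h4
    linarith
  obtain ⟨p, hp⟩ := exists_nat_ge (Real.log lam / (Real.log 3 - 1))
  refine ⟨p + 1, by omega, fun n hn => ?_⟩
  rw [Real.log_div (by positivity) hlam.ne', Real.log_pow]
  have h6 : Real.log lam / (Real.log 3 - 1) ≤ n := by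
    refine hp.trans ?_
    have : p ≤ n := by omega
    exact_mod_cast this
  rw [div_le_iff₀ h3] at h6
  linarith

theorem FEW : FEW_stmt := by
  classical
  intro B C₁ o lam hC₁ hlam hB
  obtain ⟨M, hM⟩ : ∃ M : ℝ≥0∞, M = Measure.mkMetric (gau C₁) B := ⟨_, rfl⟩
  rw [← hM] at hB
  obtain ⟨M₀, hM₀⟩ : ∃ M₀ : ℝ, M₀ = M.toReal + 1 := ⟨_, rfl⟩
  have hM₀pos : 0 < M₀ := by
    rw [hM₀]
    have := ENNReal.toReal_nonneg (a := M)
    linarith
  have hMM : M < ENNReal.ofReal M₀ := by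
    rw [ENNReal.lt_ofReal_iff_toReal_lt hB, hM₀]
    linarith
  obtain ⟨C', hC'0, hC'⟩ := FEW_low C₁
  obtain ⟨p₁, hp₁1, hp₁⟩ := FEW_level lam hlam
  refine ⟨9 * M₀ / lam + 3 * C', fun p0 => ?_⟩
  obtain ⟨p, hp⟩ : ∃ p, p = max p0 p₁ := ⟨_, rfl⟩
  have hpp0 : p0 ≤ p := by rw [hp]; exact le_max_left _ _
  have hpp1 : p₁ ≤ p := by rw [hp]; exact le_max_right _ _
  -- a cover
  obtain ⟨U, hBU, hUd, hsum⟩ : ∃ U : ℕ → Set ℝ, B ⊆ ⋃ i, U i ∧
      (∀ i, Metric.ediam (U i) ≤ ENNReal.ofReal (lam / 3 ^ p)) ∧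
      ∑' i, gau C₁ (Metric.ediam (U i)) ≤ ENNReal.ofReal M₀ := by
    rw [Measure.mkMetric_apply] at hM
    have h1 : ⨅ (U : ℕ → Set ℝ) (_ : B ⊆ ⋃ n, U n)
        (_ : ∀ n, Metric.ediam (U n) ≤ ENNReal.ofReal (lam / 3 ^ p)),
          ∑' n, ⨆ _ : (U n).Nonempty, gau C₁ (Metric.ediam (U n)) ≤ M := by
      rw [hM]
      exact le_iSup₂ (f := fun (r : ℝ≥0∞) (_ : 0 < r) => ⨅ (U : ℕ → Set ℝ) (_ : B ⊆ ⋃ n, U n)
        (_ : ∀ n, Metric.ediam (U n) ≤ r),
          ∑' n, ⨆ _ : (U n).Nonempty, gau C₁ (Metric.ediam (U n)))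
        (ENNReal.ofReal (lam / 3 ^ p)) (ENNReal.ofReal_pos.2 (by positivity))
    have h2 := lt_of_le_of_lt h1 hMM
    simp only [iInf_lt_iff] at h2
    obtain ⟨U, hU1, hU2, hU3⟩ := h2
    refine ⟨U, hU1, hU2, le_trans (ENNReal.tsum_le_tsum fun i => ?_) hU3.le⟩
    by_cases hne : (U i).Nonempty
    · simp [hne]
    · rw [Set.not_nonempty_iff_eq_empty] at hne
      rw [hne, Metric.ediam_empty]
      unfold gau
      simp
  -- points
  have hpt : ∀ i, ∃ y : ℝ, (U i).Nonempty → y ∈ U i := by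
    intro i
    by_cases hne : (U i).Nonempty
    · exact ⟨hne.some, fun _ => hne.some_mem⟩
    · exact ⟨0, fun h => absurd h hne⟩
  choose y hy using hpt
  -- the levels
  have hfin : ∀ n : ℕ, ∃ hf : {i : ℕ | ENNReal.ofReal (lam / 3 ^ (n + 1) *
      Real.exp (C₁ * Real.log n ^ 3)) ≤ gau C₁ (Metric.ediam (U i))}.Finite,
      (hf.toFinset.card : ℝ≥0∞) ≤
        ENNReal.ofReal M₀ / ENNReal.ofReal (lam / 3 ^ (n + 1) *
      Real.exp (C₁ * Real.log n ^ 3)) := fun n =>
    ENNReal.finset_card_const_le_le_of_tsum_le ENNReal.ofReal_ne_top hsum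
      (ENNReal.ofReal_pos.2 (by positivity)).ne'
  choose hf hfc using hfin
  refine ⟨fun n => if n < p then ∅ else
    ((hf n).toFinset.biUnion fun i => RB_three o lam n (y i)) ∪
    RB_three o lam n (y (n - p)), ?_, ?_⟩
  · intro n hn
    have hF : 0 < (3 : ℝ) ^ n * Real.exp (-(C₁ * Real.log n ^ 3)) := by positivity
    simp only
    by_cases hnp : n < p
    · rw [if_pos hnp, Finset.card_empty, Nat.cast_zero]
      positivity
    · rw [if_neg hnp]
      have h1 : (((hf n).toFinset.biUnion fun i => RB_three o lam n (y i)) ∪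
          RB_three o lam n (y (n - p))).card ≤ (hf n).toFinset.card * 3 + 3 := by
        refine (Finset.card_union_le _ _).trans (add_le_add ?_ (RB_three_card _ _ _ _))
        refine Finset.card_biUnion_le.trans ?_
        refine (Finset.sum_le_sum fun i _ => RB_three_card o lam n (y i)).trans (le_of_eq ?_)
        rw [Finset.sum_const, smul_eq_mul]
      have h2 : ((hf n).toFinset.card : ℝ) ≤
          3 * M₀ / lam * (3 ^ n * Real.exp (-(C₁ * Real.log n ^ 3))) := by
        have h3 := hfc n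
        have hpos : (0 : ℝ) < lam / 3 ^ (n + 1) * Real.exp (C₁ * Real.log n ^ 3) := by
          positivity
        rw [← ENNReal.ofReal_div_of_pos hpos] at h3
        have h4 : (((hf n).toFinset.card : ℝ≥0∞)) = ENNReal.ofReal ((hf n).toFinset.card : ℝ) := by
          simp
        rw [h4, ENNReal.ofReal_le_ofReal_iff (by positivity)] at h3
        refine h3.trans (le_of_eq ?_)
        rw [Real.exp_neg]
        have := (Real.exp_pos (C₁ * Real.log n ^ 3)).ne'
        rw [pow_succ]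
        field_simp
      have h3 := hC' n
      have h1' : ((((hf n).toFinset.biUnion fun i => RB_three o lam n (y i)) ∪
          RB_three o lam n (y (n - p))).card : ℝ) ≤ (hf n).toFinset.card * 3 + 3 := by
        exact_mod_cast h1
      refine h1'.trans ?_
      have h5 : (9 * M₀ / lam + 3 * C') * (3 ^ n * Real.exp (-(C₁ * Real.log n ^ 3))) =
          3 * (3 * M₀ / lam * (3 ^ n * Real.exp (-(C₁ * Real.log n ^ 3)))) +
          3 * (C' * (3 ^ n * Real.exp (-(C₁ * Real.log n ^ 3)))) := by ring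
      rw [h5]
      linarith
  · intro x hx
    obtain ⟨i, hi⟩ := Set.mem_iUnion.1 (hBU hx)
    have hyi := hy i ⟨x, hi⟩
    have hdist : edist x (y i) ≤ Metric.ediam (U i) := Metric.edist_le_ediam_of_mem hi hyi
    by_cases hd : Metric.ediam (U i) = 0
    · -- a single point
      have hxy : x = y i := by
        rw [hd] at hdist
        exact edist_le_zero.1 hdist
      refine ⟨p + i, by omega, ?_⟩
      simp only
      rw [if_neg (by omega)]
      refine Finset.mem_union_right _ ?_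
      have e : p + i - p = i := by omega
      rw [e, hxy]
      exact RB_mem_three hlam _ (by simp; positivity)
    · have hfinite : Metric.ediam (U i) ≠ ⊤ := ne_top_of_le_ne_top ENNReal.ofReal_ne_top (hUd i)
      set δ := (Metric.ediam (U i)).toReal with hδdef
      have hδ : 0 < δ := ENNReal.toReal_pos hd hfinite
      have hδe : Metric.ediam (U i) = ENNReal.ofReal δ := (ENNReal.ofReal_toReal hfinite).symm
      have hδp : δ ≤ lam / 3 ^ p := by
        have := hUd i
        rw [hδe, ENNReal.ofReal_le_ofReal_iff (by positivity)] at this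
        exact this
      have hex : ∃ k : ℕ, lam / 3 ^ k < δ := by
        obtain ⟨k, hk⟩ := exists_pow_lt_of_lt_one (show 0 < δ / lam by positivity)
          (show (1 / 3 : ℝ) < 1 by norm_num)
        refine ⟨k, ?_⟩
        rw [one_div, inv_pow, lt_div_iff₀ hlam] at hk
        calc lam / 3 ^ k = (3 ^ k)⁻¹ * lam := by rw [div_eq_mul_inv, mul_comm]
          _ < δ := hk
      have hk := Nat.find_spec hex
      set k := Nat.find hex with hkdef
      have hkp : p < k := by
        by_contra hle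
        push Not at hle
        have h1 : (3 : ℝ) ^ k ≤ 3 ^ p := pow_le_pow_right₀ (by norm_num) hle
        have h2 : lam / 3 ^ p ≤ lam / 3 ^ k := by gcongr
        linarith
      have hk1 : δ ≤ lam / 3 ^ (k - 1) := by
        have := Nat.find_min hex (m := k - 1) (by omega)
        exact not_lt.1 this
      refine ⟨k - 1, by omega, ?_⟩
      simp only
      rw [if_neg (by omega)]
      refine Finset.mem_union_left _ (Finset.mem_biUnion.2 ⟨i, ?_, ?_⟩)
      · rw [Set.Finite.mem_toFinset]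
        show ENNReal.ofReal (lam / 3 ^ (k - 1 + 1) * Real.exp (C₁ * Real.log ((k - 1 : ℕ) : ℝ) ^ 3)) ≤
          gau C₁ (Metric.ediam (U i))
        rw [hδe]
        apply FEW_gau hC₁ hlam (by omega) (hp₁ _ (by omega)) _ hk1
        have e : k - 1 + 1 = k := by omega
        rw [e]
        exact hk.le
      · apply RB_mem_three hlam
        rw [hδe, edist_dist, ENNReal.ofReal_le_ofReal_iff hδ.le, Real.dist_eq] at hdist
        exact hdist.trans hk1

end Pool.Agent.GA
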