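import Pool.Agent.helper4.GA.Spec

set_option autoImplicit false

/-!
# MP_3c0a64_an, row ga:FS1
-/

namespace Pool.Agent.GA

open Finset
open Pool.Agent.helper32.Cant

theorem FS1_pow (m : ℕ) (hm : 7 ≤ m) : 91 * m ≤ 3 ^ (m - 1) := by
  induction m, hm using Nat.le_induction with
  | base => norm_num
  | succ m hm ih =>
    obtain ⟨j, rfl⟩ := Nat.exists_eq_add_of_le hm
    have e1 : 7 + j + 1 - 1 = (7 + j - 1) + 1 := by omega
    rw [e1, pow_succ]
    omega

theorem FS1 (hUFB : UFB_stmt) (hLMT : LMT_stmt) (hPTH : PTH_stmt) (hFP1 : FP1_stmt)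
    (hFP2 : FP2_stmt) : FS1_stmt := by
  refine ⟨730, fun n hn c hc => ?_⟩
  obtain ⟨m, hm⟩ : ∃ m, m = Nat.clog 3 n := ⟨_, rfl⟩
  have hn1 : 1 ≤ n := by omega
  have hnm : n ≤ 3 ^ m := by
    rw [hm]
    exact Nat.le_pow_clog (by norm_num) n
  have hm7 : 7 ≤ m := by
    by_contra h
    have h1 : 3 ^ m ≤ 3 ^ 6 := Nat.pow_le_pow_right (by norm_num) (by omega)
    have h2 : (3 : ℕ) ^ 6 = 729 := by norm_num
    omega
  have h91 : 91 * m ≤ n := by
    have h1 := FS1_pow m hm7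
    have h2 : 3 ^ (m - 1) < n := by
      rw [hm]
      exact Nat.pow_pred_clog_lt_self (by norm_num) (by omega)
    omega
  obtain ⟨S, hS⟩ : ∃ S : ℝ, S = 2 * 10 ^ 13 * (m : ℝ) ^ 3 := ⟨_, rfl⟩
  have hSm : Sm n = S := by
    rw [hS, hm]
    rfl
  have hmR : (7 : ℝ) ≤ m := by exact_mod_cast hm7
  have hSge : 10 ^ 13 * (m : ℝ) ≤ S := by
    rw [hS]
    have h1 : (1 : ℝ) ≤ (m : ℝ) ^ 2 := by nlinarith
    have h2 : (m : ℝ) ^ 3 = m * (m : ℝ) ^ 2 := by ring
    rw [h2]
    nlinarith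
  have hS6 : (6 : ℝ) ≤ S := by nlinarith
  have hlog : Real.log 3 ≤ 2 := by
    have := Real.log_le_sub_one_of_pos (show (0 : ℝ) < 3 by norm_num)
    linarith
  have hlog0 : 0 < Real.log 3 := Real.log_pos (by norm_num)
  have key : ∀ k ∈ Ico (30 * m) (n - 61 * m),
      ex (mu c) (fun z => Uf c (obs c (k - 30 * m) 0) k z * ind (Lam c (S / n) (30 * m) k z)) ≤
        1 / 3 ^ (12 * m) := by
    intro k hk
    rw [mem_Ico] at hk
    rcases lt_or_ge (((k - 30 * m : ℕ) : ℝ) * Real.log 3) S with h | h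
    · rw [hLMT n c k (30 * m) S hn1 hk.1 (by omega) h]
      positivity
    · have hkg : 91 * m ≤ k - 30 * m := by
        have h1 : S ≤ ((k - 30 * m : ℕ) : ℝ) * 2 :=
          h.trans (mul_le_mul_of_nonneg_left hlog (Nat.cast_nonneg _))
        have h2 : (91 : ℝ) * m ≤ ((k - 30 * m : ℕ) : ℝ) := by nlinarith
        exact_mod_cast h2
      obtain ⟨D, hD⟩ : ∃ D, D = k - 30 * m := ⟨_, rfl⟩
      rw [← hD] at hkg
      obtain ⟨T, hT⟩ : ∃ T, T = (D - 91 * m) / (2 * (91 * m)) := ⟨_, rfl⟩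
      have hpos : 0 < 2 * (91 * m) := by omega
      have hT1 : 2 * (91 * m) * T ≤ D - 91 * m := by
        rw [hT]
        exact Nat.mul_div_le _ _
      have hT2 : D - 91 * m < 2 * (91 * m) * (T + 1) := by
        rw [hT]
        exact Nat.lt_mul_div_succ _ hpos
      have hT3 : 2 * (91 * m) * (T + 1) = 2 * (91 * m) * T + 2 * (91 * m) := by ring
      have hx9 : 9 * 3 ^ (D + 90 * m) = 3 ^ (D + 90 * m + 2) := by
        rw [pow_add 3 (D + 90 * m) 2]
        ring
      have hU := hUFB n c k (30 * m) (91 * m) T (3 ^ (D + 90 * m)) S (8400000 * m) (3 ^ (125 * m))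
        hn1 hc hk.1 (by omega) (by omega) (by rw [← hD]; omega) (by rw [← hD]; omega)
        (by
          have h1 : (3 : ℝ) ^ 1 ≤ 3 ^ (125 * m) :=
            pow_le_pow_right₀ (by norm_num) (by omega)
          linarith)
        (Nat.one_le_pow _ _ (by norm_num))
        (by
          rw [hx9, ← hD]
          exact Nat.pow_le_pow_right (by norm_num) (by omega))
        (by
          have h1 : 3 ^ (D + 90 * m + 2) ≤ 3 ^ n := Nat.pow_le_pow_right (by norm_num) (by omega)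
          omega)
      refine hU.trans ?_
      have e1 : ((3 ^ (D + 90 * m) : ℕ) : ℝ) / 3 ^ (k - 30 * m) = 3 ^ (90 * m) := by
        rw [← hD]
        push_cast
        rw [pow_add, mul_div_assoc, mul_comm, div_mul_cancel₀ _ (by positivity)]
      rw [e1]
      have hf := hFP1 n m (by omega) hnm
      rw [← hS] at hf
      refine hFP2 n m _ (by omega) hnm ?_ hf
      unfold et
      positivity
  have hP := hPTH n c (30 * m) (61 * m) S hn1 hc (by omega) (by omega)
    (by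
      push_cast
      nlinarith)
    (by
      push_cast
      nlinarith)
  rw [hSm]
  refine hP.trans ?_
  have h1 : ∑ k ∈ Ico (30 * m) (n - 61 * m), 8 / 3 * ex (mu c)
      (fun z => Uf c (obs c (k - 30 * m) 0) k z * ind (Lam c (S / n) (30 * m) k z)) ≤
      (n : ℝ) * (8 / 3 * (1 / 3 ^ (12 * m))) := by
    calc _ ≤ ∑ k ∈ Ico (30 * m) (n - 61 * m), (8 / 3 * (1 / 3 ^ (12 * m)) : ℝ) :=
          sum_le_sum fun k hk => mul_le_mul_of_nonneg_left (key k hk) (by norm_num)
      _ = ((n - 61 * m - 30 * m : ℕ) : ℝ) * (8 / 3 * (1 / 3 ^ (12 * m))) := by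
          rw [sum_const, Nat.card_Ico, nsmul_eq_mul]
      _ ≤ _ := by
          apply mul_le_mul_of_nonneg_right _ (by positivity)
          have : n - 61 * m - 30 * m ≤ n := by omega
          exact_mod_cast this
  have hnR : (0 : ℝ) < n := by
    have : 0 < n := by omega
    exact_mod_cast this
  have h2 : (n : ℝ) ^ 12 ≤ 3 ^ (12 * m) := by
    have h3 : (n : ℝ) ≤ 3 ^ m := by exact_mod_cast hnm
    rw [mul_comm 12 m, pow_mul]
    exact pow_le_pow_left₀ hnR.le h3 12
  have h3 : (1 : ℝ) / 3 ^ (12 * m) ≤ 1 / (n : ℝ) ^ 12 :=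
    one_div_le_one_div_of_le (by positivity) h2
  have h4 : 2 / S * (8 / 3) ≤ 1 := by
    rw [div_mul_eq_mul_div, div_le_one (by linarith)]
    linarith
  refine (mul_le_mul_of_nonneg_left h1 (by positivity)).trans ?_
  calc 2 / S * ((n : ℝ) * (8 / 3 * (1 / 3 ^ (12 * m))))
      ≤ 2 / S * ((n : ℝ) * (8 / 3 * (1 / (n : ℝ) ^ 12))) := by
        apply mul_le_mul_of_nonneg_left _ (by positivity)
        apply mul_le_mul_of_nonneg_left _ hnR.le
        exact mul_le_mul_of_nonneg_left h3 (by norm_num)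
    _ = (2 / S * (8 / 3)) * (1 / (n : ℝ) ^ 11) := by
        field_simp
    _ ≤ 1 * (1 / (n : ℝ) ^ 11) := mul_le_mul_of_nonneg_right h4 (by positivity)
    _ = 1 / (n : ℝ) ^ 11 := one_mul _

end Pool.Agent.GA
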